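import Pool.Agent.Lib_helper58.KT.Defs
import Pool.Agent.Lib_helper61.TU.Main

/-!
# Eigenvalues at a Frobenius element of a representation with many Tate classes (traces in `Qbar`)
-/

set_option autoImplicit false

namespace Pool.Agent.PG

open NumberField Topology Polynomial
open Pool.Agent.TT Pool.Agent.TB Pool.Agent.TF Pool.Agent.RF Pool.Agent.TBL Pool.Agent.TU Pool.Agent.KT

open Classical in
/-- Many Tate classes give many eigenvalues at a Frobenius element that are roots of unity up to a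
power of `q`; all eigenvalues are considered as algebraic numbers. -/
theorem block_TATE {L : Type} [Field L] [NumberField L] [Algebra L Qbar] {ℓ : ℕ} [Fact ℓ.Prime]
    (ι : Qbar →+* PadicAlgCl ℓ) {V : Type} [AddCommGroup V] [Module (PadicAlgCl ℓ) V]
    [Module.Finite (PadicAlgCl ℓ) V] {d : ℕ} (hV : Module.finrank (PadicAlgCl ℓ) V = d)
    (π : Representation (PadicAlgCl ℓ) (Qbar ≃ₐ[L] Qbar) V)
    (T : ∀ (F : Type) [Field F] [Fintype F], (𝓞 L →+* F) → Qbar)
    (hπ : FrobeniusValues (fun σ => LinearMap.trace (PadicAlgCl ℓ) V (π σ))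
      (fun F _ _ φ => ι (T F φ))) {j e : ℕ} (hT : ¬ TateClassesLE π j e) :
    ∃ B : Finset ℕ, ∀ q : ℕ, q.Prime → q ∉ B → ∀ Q : Ideal (𝓞 Qbar), Q.IsPrime →
      (q : 𝓞 Qbar) ∈ Q → ∀ σ : Qbar ≃ₐ[L] Qbar,
        (∀ x y : 𝓞 Qbar, (y : Qbar) = σ x → y - x ^ q ∈ Q) →
      ∃ α : Fin d → Qbar, (∀ r, 1 ≤ r → ∀ (F : Type) [Field F] [Fintype F] (φ : 𝓞 L →+* F),
        Fintype.card F = q ^ r → (∀ x : 𝓞 L, φ x = 0 ↔ algebraMap (𝓞 L) (𝓞 Qbar) x ∈ Q) →
          ∑ i, α i ^ r = T F φ) ∧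
        ∃ M : ℕ, 0 < M ∧
          e < (Finset.univ.filter fun i => α i ^ M = ((q : Qbar) ^ M) ^ j).card := by
  unfold TateClassesLE at hT
  push Not at hT
  obtain ⟨H, hH, W₁, W₂, hW, hTate, hlt⟩ := hT
  obtain ⟨B, hB⟩ := hπ
  have hac : Algebra.IsAlgebraic L Qbar := by
    have : Algebra.IsAlgebraic ℚ Qbar := AlgebraicClosure.isAlgebraic ℚ
    exact Algebra.IsAlgebraic.tower_top (K := ℚ) L
  have hgal : IsGalois L Qbar := by
    have : Algebra.IsSeparable L Qbar := inferInstance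
    have : Normal L Qbar := by
      have : IsAlgClosed Qbar := inferInstance
      have : IsAlgClosure L Qbar := ⟨this, hac⟩
      exact IsAlgClosure.normal L Qbar
    exact {}
  refine ⟨B ∪ {ℓ}, ?_⟩
  intro q hq hqB P hP hqP σ hσ
  rw [Finset.mem_union, Finset.mem_singleton, not_or] at hqB
  obtain ⟨hqB2, hql⟩ := hqB
  have hqF : Fact q.Prime := ⟨hq⟩
  obtain ⟨φp, hφp, _⟩ := ft_phi hq hP hqP hσ
  have hq0 : (q : PadicAlgCl ℓ) ≠ 0 := by
    have := hq.ne_zero
    exact_mod_cast this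
  -- the traces of the powers
  have hval : ∀ r : ℕ, 1 ≤ r → ∀ (F : Type) [Field F] [Fintype F] (φ : 𝓞 L →+* F),
      Fintype.card F = q ^ r → (∀ x : 𝓞 L, φ x = 0 ↔ algebraMap (𝓞 L) (𝓞 Qbar) x ∈ P) →
      LinearMap.trace (PadicAlgCl ℓ) V (π (σ⁻¹ ^ r)) = ι (T F φ) := by
    intro r hr F _ _ φ hcard hφ0
    have hfr : ∀ x y : 𝓞 Qbar, (y : Qbar) = (σ ^ r) x → y - x ^ Fintype.card F ∈ P := by
      rw [hcard]
      exact pl_frob_pow hσ r
    rw [inv_pow]
    exact hB q hq hqB2 P hP hqP F φ hφ0 (σ ^ r) hfr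
  obtain ⟨t, ht⟩ : ∃ t : ℕ → Qbar, ∀ r : ℕ, 1 ≤ r →
      LinearMap.trace (PadicAlgCl ℓ) V (π (σ⁻¹ ^ r)) = ι (t r) := by
    let _ : ∀ r, Fintype (GaloisField q r) := fun r => Fintype.ofFinite _
    have hcardF : ∀ r, 1 ≤ r → Fintype.card (GaloisField q r) = q ^ r := by
      intro r hr
      rw [← Nat.card_eq_fintype_card]
      exact GaloisField.card q r (by omega)
    let φ : ∀ r, 𝓞 L →+* GaloisField q r := fun r =>
      (algebraMap (ZMod q) (GaloisField q r)).comp φp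
    have hφ0 : ∀ r (x : 𝓞 L), φ r x = 0 ↔ algebraMap (𝓞 L) (𝓞 Qbar) x ∈ P := by
      intro r x
      rw [← hφp]
      exact map_eq_zero_iff _ (algebraMap (ZMod q) (GaloisField q r)).injective
    exact ⟨fun r => T (GaloisField q r) (φ r), fun r hr =>
      hval r hr (GaloisField q r) (φ r) (hcardF r hr) (hφ0 r)⟩
  -- a power in the open subgroup
  have hfi : H.FiniteIndex :=
    haveI := H.quotient_finite_of_isOpen hH
    Subgroup.finiteIndex_of_finite_quotient
  obtain ⟨M, hM, -, hMH⟩ := Subgroup.exists_pow_mem_of_index_ne_zero hfi.index_ne_zero σ⁻¹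
  have hcyc : cyc ℓ (σ⁻¹ ^ M) = ((q : PadicAlgCl ℓ) ^ M)⁻¹ := by
    have h4 : cyc ℓ σ⁻¹ * (q : PadicAlgCl ℓ) = 1 := by
      rw [← cyc_frob hq (Ne.symm hql) hP hqP hσ, ← tv_cyc_mul, inv_mul_cancel, tv_cyc_one]
    have h3 : ∀ n : ℕ, cyc ℓ (σ⁻¹ ^ n) * (q : PadicAlgCl ℓ) ^ n = 1 := by
      intro n
      induction n with
      | zero => rw [pow_zero, pow_zero, tv_cyc_one, mul_one]
      | succ n ih =>
        rw [pow_succ, tv_cyc_mul, pow_succ]
        calc cyc ℓ (σ⁻¹ ^ n) * cyc ℓ σ⁻¹ * ((q : PadicAlgCl ℓ) ^ n * q) =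
            (cyc ℓ (σ⁻¹ ^ n) * (q : PadicAlgCl ℓ) ^ n) * (cyc ℓ σ⁻¹ * q) := by ring
          _ = 1 := by rw [ih, h4, one_mul]
    exact eq_inv_of_mul_eq_one_left (h3 M)
  -- the multiplicity
  set c : PadicAlgCl ℓ := ((q : PadicAlgCl ℓ) ^ M) ^ j with hc
  have hmult : Module.finrank (PadicAlgCl ℓ) W₂ ≤ Module.finrank (PadicAlgCl ℓ) W₁ +
      (π (σ⁻¹ ^ M)).charpoly.rootMultiplicity c := by
    apply tv_sub
    intro x hx
    have h1 := hTate _ hMH x hx
    rw [hcyc] at h1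
    have h2 := W₁.smul_mem c h1
    have h3 : c * (((q : PadicAlgCl ℓ) ^ M)⁻¹) ^ j = 1 := by
      rw [hc, ← mul_pow, mul_inv_cancel₀ (pow_ne_zero _ hq0), one_pow]
    rw [smul_sub, smul_smul, h3, one_smul] at h2
    exact h2
  obtain ⟨d₁, y, hy⟩ := np_family (π σ⁻¹).charpoly.roots
  have hd₁ : d₁ = d := by
    have h1 := congrArg Multiset.card hy
    rw [Multiset.card_map, Finset.card_val, Finset.card_univ, Fintype.card_fin,
      ← (IsAlgClosed.splits (π σ⁻¹).charpoly).natDegree_eq_card_roots,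
      LinearMap.charpoly_natDegree, hV] at h1
    exact h1
  subst hd₁
  have hmult3 : (π (σ⁻¹ ^ M)).charpoly.rootMultiplicity c =
      (Finset.univ.filter fun i : Fin d₁ => y i ^ M = c).card := by
    have h3 : π (σ⁻¹ ^ M) = π σ⁻¹ ^ M := map_pow π _ _
    rw [← Polynomial.count_roots, h3, tw_pow, ← hy, Multiset.map_map, Multiset.count_map]
    rw [Finset.card_def, Finset.filter_val]
    congr 1
    apply Multiset.filter_congr
    intro i _
    exact eq_comm
  -- the characteristic polynomial over `L`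
  have hinj2 : Function.Injective (π σ⁻¹) := by
    intro x y hxy
    have h3 : π σ (π σ⁻¹ x) = π σ (π σ⁻¹ y) := by rw [hxy]
    rw [← Module.End.mul_apply, ← Module.End.mul_apply, ← map_mul, mul_inv_cancel, map_one,
      Module.End.one_apply, Module.End.one_apply] at h3
    exact h3
  have htr1 : ∀ r, 1 ≤ r → LinearMap.trace (PadicAlgCl ℓ) V ((π σ⁻¹) ^ r) = ι (t r) := by
    intro r hr
    have h3 : π (σ⁻¹ ^ r) = π σ⁻¹ ^ r := map_pow π _ _
    have h4 := ht r hr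
    rw [h3] at h4
    exact h4
  obtain ⟨f, hf, -⟩ := np_charpoly ι ι (π σ⁻¹) (π σ⁻¹) hinj2 hinj2 t htr1 htr1
  have hroots : (π σ⁻¹).charpoly.roots = f.roots.map ι := by
    rw [hf]
    exact Polynomial.Splits.roots_map (IsAlgClosed.splits f) ι
  have hα : ∀ i, ∃ α : Qbar, ι α = y i := by
    intro i
    have h1 : y i ∈ (π σ⁻¹).charpoly.roots := by
      rw [← hy, Multiset.mem_map]
      exact ⟨i, Finset.mem_univ i, rfl⟩
    rw [hroots, Multiset.mem_map] at h1
    obtain ⟨α, -, hα⟩ := h1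
    exact ⟨α, hα⟩
  choose α hα using hα
  have hθinj : Function.Injective ι := ι.injective
  refine ⟨α, ?_, M, hM, ?_⟩
  · intro r hr F _ _ φ hcard hφ0
    apply hθinj
    rw [← hval r hr F φ hcard hφ0, map_sum]
    have h7 : π (σ⁻¹ ^ r) = π σ⁻¹ ^ r := map_pow π _ _
    rw [h7, tu_trace, ← hy, Multiset.map_map]
    simp only [map_pow, hα]
    rfl
  · have h1 : (Finset.univ.filter fun i => α i ^ M = ((q : Qbar) ^ M) ^ j) =
        (Finset.univ.filter fun i : Fin d₁ => y i ^ M = c) := by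
      apply Finset.filter_congr
      intro i _
      rw [← hα i, hc, ← hθinj.eq_iff, map_pow, map_pow, map_pow, map_natCast]
    rw [h1, ← hmult3]
    omega

end Pool.Agent.PG
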